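import Pool.Agent.Helper27.T4.Sch

/-!
# T4' (MP_12a1af), block S: the digits of the three families have positive proportions

At the border `bb k` the families `k, k + 1, k + 2 (mod 3)` have about `8/38, 12/38, 18/38` of all
digits.
-/

set_option autoImplicit false

namespace Pool.Agent.Helper97.ET

open Finset Pool.Agent.Helper5.ET

section

/-- the hypotheses (facts of the schedule) -/
structure Sched : Prop where
  step : ∀ k, bb k + bb k / 2 ≤ bb (k + 1) ∧ bb (k + 1) ≤ bb k + bb k / 2 + wof (bb k) + 1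
  spec : ∀ y, bb 0 ≤ y → bb (era y) ≤ y ∧ y < bb (era y + 1)
  eraEq : ∀ y k, bb k ≤ y → y < bb (k + 1) → era y = k
  mono : StrictMono bb
  small : ∀ ε : ℝ, 0 < ε → ∃ y0 : ℕ, ∀ y ≥ y0, (wof y : ℝ) ≤ ε * y

variable (hS : Sched)

/-- the family `k mod 3` -/
def fam (k : ℕ) : Fin 3 := ⟨k % 3, Nat.mod_lt _ (by norm_num)⟩

lemma fam_add_three (k : ℕ) : fam (k + 3) = fam k := by
  simp [fam]

lemma fam_ne_one (k : ℕ) : fam (k + 1) ≠ fam k := by
  intro h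
  have := congrArg Fin.val h
  simp only [fam] at this
  omega

lemma fam_ne_two (k : ℕ) : fam (k + 2) ≠ fam k := by
  intro h
  have := congrArg Fin.val h
  simp only [fam] at this
  omega

lemma fam_cases (k : ℕ) (f : Fin 3) : f = fam k ∨ f = fam (k + 1) ∨ f = fam (k + 2) := by
  have hf := f.isLt
  have h : f.val = k % 3 ∨ f.val = (k + 1) % 3 ∨ f.val = (k + 2) % 3 := by omega
  rcases h with h | h | h
  · left; exact Fin.ext h
  · right; left; exact Fin.ext h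
  · right; right; exact Fin.ext h

include hS in
lemma own_eq {y k : ℕ} (h1 : bb k ≤ y) (h2 : y < bb (k + 1)) : own y = fam k := by
  unfold own fam
  simp only [hS.eraEq y k h1 h2]

/-- splitting the count at a position -/
lemma cnt_split (f : Fin 3) {y z : ℕ} (h : y ≤ z) :
    cnt f z = cnt f y + ((Ico y z).filter (fun t => own t = f)).card := by
  unfold cnt
  rw [← card_union_of_disjoint]
  · congr 1
    ext t
    simp only [mem_filter, mem_range, mem_union, mem_Ico]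
    constructor
    · rintro ⟨h1, h2⟩
      by_cases h3 : t < y
      · exact Or.inl ⟨h3, h2⟩
      · exact Or.inr ⟨⟨not_lt.1 h3, h1⟩, h2⟩
    · rintro (⟨h1, h2⟩ | ⟨⟨h1, h2⟩, h3⟩)
      · exact ⟨lt_of_lt_of_le h1 h, h2⟩
      · exact ⟨h2, h3⟩
  · rw [disjoint_left]
    intro t h1 h2
    simp only [mem_filter, mem_range, mem_Ico] at h1 h2
    omega

include hS in
/-- the owner grows -/
lemma cnt_own (k : ℕ) {y : ℕ} (h1 : bb k ≤ y) (h2 : y ≤ bb (k + 1)) :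
    cnt (fam k) y = cnt (fam k) (bb k) + (y - bb k) := by
  rw [cnt_split (fam k) h1]
  congr 1
  rw [filter_true_of_mem, Nat.card_Ico]
  intro t ht
  rw [mem_Ico] at ht
  exact own_eq hS ht.1 (lt_of_lt_of_le ht.2 h2)

include hS in
/-- the others do not -/
lemma cnt_other (k : ℕ) {y : ℕ} (h1 : bb k ≤ y) (h2 : y ≤ bb (k + 1)) {f : Fin 3}
    (hf : f ≠ fam k) : cnt f y = cnt f (bb k) := by
  rw [cnt_split f h1]
  rw [filter_false_of_mem, card_empty, add_zero]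
  intro t ht
  rw [mem_Ico] at ht
  rw [own_eq hS ht.1 (lt_of_lt_of_le ht.2 h2)]
  exact fun h => hf h.symm

/-- the size of the family `k` at the beginning of its era -/
def ww (k : ℕ) : ℕ := cnt (fam k) (bb k)

lemma cnt_le (f : Fin 3) (y : ℕ) : cnt f y ≤ y := by
  unfold cnt
  exact (card_filter_le _ _).trans (by simp)

include hS in
lemma cnt_one (k : ℕ) {y : ℕ} (h1 : bb k ≤ y) (h2 : y ≤ bb (k + 1)) :
    cnt (fam (k + 1)) y = ww (k + 1) := by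
  rw [cnt_other hS k h1 h2 (fam_ne_one k), ww,
    cnt_other hS k (hS.mono (Nat.lt_succ_self k)).le le_rfl (fam_ne_one k)]

include hS in
lemma cnt_two (k : ℕ) {y : ℕ} (h1 : bb k ≤ y) (h2 : y ≤ bb (k + 1)) :
    cnt (fam (k + 2)) y = ww (k + 2) := by
  have h3 : cnt (fam (k + 2)) (bb (k + 2)) = cnt (fam (k + 2)) (bb (k + 1)) :=
    cnt_other hS (k + 1) (hS.mono (Nat.lt_succ_self (k + 1))).le le_rfl (fam_ne_one (k + 1))
  rw [cnt_other hS k h1 h2 (fam_ne_two k), ww, h3,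
    cnt_other hS k (hS.mono (Nat.lt_succ_self k)).le le_rfl (fam_ne_two k)]

include hS in
lemma ww_rec (k : ℕ) : ww (k + 3) = ww k + (bb (k + 1) - bb k) := by
  have h0 := (hS.mono (Nat.lt_succ_self k)).le
  have h1 := (hS.mono (Nat.lt_succ_self (k + 1))).le
  have h2 := (hS.mono (Nat.lt_succ_self (k + 2))).le
  have e1 : cnt (fam k) (bb (k + 1)) = ww k + (bb (k + 1) - bb k) := cnt_own hS k h0 le_rfl
  have e2 : cnt (fam k) (bb (k + 2)) = cnt (fam k) (bb (k + 1)) :=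
    cnt_other hS (k + 1) h1 le_rfl (fam_ne_one k).symm
  have e3 : cnt (fam k) (bb (k + 3)) = cnt (fam k) (bb (k + 2)) :=
    cnt_other hS (k + 2) h2 le_rfl (fam_ne_two k).symm
  rw [ww, fam_add_three, e3, e2, e1]

lemma ww_le (k : ℕ) : ww k ≤ bb k := cnt_le _ _

include hS in
lemma bb_pos (k : ℕ) : 0 < bb k := by
  have h : bb 0 ≤ bb k := hS.mono.monotone (Nat.zero_le k)
  have h0 : bb 0 = 2 ^ 64 := rfl
  have : 0 < 2 ^ 64 := by norm_num
  omega

include hS in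
lemma bb_ge (k : ℕ) : k ≤ bb k := hS.mono.le_apply

include hS in
/-- the ratio of two consecutive borders is `3/2` up to `ε` -/
lemma bb_ratio (ε : ℝ) (hε : 0 < ε) : ∃ k0 : ℕ, ∀ k ≥ k0,
    (3 / 2 - ε) * (bb k : ℝ) ≤ bb (k + 1) ∧ (bb (k + 1) : ℝ) ≤ (3 / 2 + ε) * bb k := by
  obtain ⟨y0, hy0⟩ := hS.small (ε / 2) (by positivity)
  obtain ⟨m, hm⟩ := exists_nat_gt (2 / ε)
  refine ⟨max y0 m, fun k hk => ?_⟩
  have h1 := hS.step k
  have h2 : y0 ≤ bb k := (le_trans (le_max_left _ _) hk).trans (bb_ge hS k)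
  have h3 : m ≤ bb k := (le_trans (le_max_right _ _) hk).trans (bb_ge hS k)
  have h4 := hy0 (bb k) h2
  have h5 : (m : ℝ) ≤ bb k := by exact_mod_cast h3
  have h6 : 1 ≤ ε / 2 * (bb k : ℝ) := by
    have : 2 / ε ≤ (bb k : ℝ) := hm.le.trans h5
    rw [div_le_iff₀ hε] at this
    linarith
  have h7 : 2 * (bb k / 2) ≤ bb k ∧ bb k ≤ 2 * (bb k / 2) + 1 := by omega
  have h8 : (2 : ℝ) * ((bb k / 2 : ℕ) : ℝ) ≤ bb k := by exact_mod_cast h7.1
  have h9 : (bb k : ℝ) ≤ 2 * ((bb k / 2 : ℕ) : ℝ) + 1 := by exact_mod_cast h7.2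
  have h10 : (bb k : ℝ) + ((bb k / 2 : ℕ) : ℝ) ≤ bb (k + 1) := by exact_mod_cast h1.1
  have h11 : (bb (k + 1) : ℝ) ≤ bb k + ((bb k / 2 : ℕ) : ℝ) + wof (bb k) + 1 := by
    exact_mod_cast h1.2
  constructor
  · linarith
  · linarith

include hS in
/-- `ww k / bb k` tends to `4/19` -/
theorem ww_lim (δ : ℝ) (hδ : 0 < δ) : ∃ k0 : ℕ, ∀ k ≥ k0,
    |(ww k : ℝ) - 4 / 19 * bb k| ≤ δ * bb k := by
  -- choose the error of the ratios
  set ε : ℝ := min (δ / 2) (1 / 100) with hε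
  have hε0 : 0 < ε := by rw [hε]; positivity
  have hε1 : ε ≤ 1 / 100 := min_le_right _ _
  have hεδ : ε ≤ δ / 2 := min_le_left _ _
  obtain ⟨k1, hk1⟩ := bb_ratio hS (ε / 8) (by positivity)
  -- contraction
  have hcontr : ∀ k ≥ k1, ∀ r : ℝ, 0 ≤ r → |(ww k : ℝ) - 4 / 19 * bb k| ≤ r * bb k →
      |(ww (k + 3) : ℝ) - 4 / 19 * bb (k + 3)| ≤ (r / 2 + ε / 2) * bb (k + 3) := by
    intro k hk r hr hu
    have hb : (0 : ℝ) < bb k := by exact_mod_cast bb_pos hS k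
    obtain ⟨a1, a2⟩ := hk1 k hk
    obtain ⟨b1, b2⟩ := hk1 (k + 1) (by omega)
    obtain ⟨c1, c2⟩ := hk1 (k + 2) (by omega)
    have hrec : (ww (k + 3) : ℝ) = ww k + (bb (k + 1) - bb k) := by
      rw [ww_rec hS k]
      push_cast [Nat.cast_sub (hS.mono (Nat.lt_succ_self k)).le]
      ring
    -- bounds for `bb (k + 3)`
    have hlo : (3 / 2 - ε / 8) ^ 3 * (bb k : ℝ) ≤ bb (k + 3) := by
      have h1 : (0 : ℝ) ≤ 3 / 2 - ε / 8 := by linarith
      calc (3 / 2 - ε / 8) ^ 3 * (bb k : ℝ)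
          = (3 / 2 - ε / 8) * ((3 / 2 - ε / 8) * ((3 / 2 - ε / 8) * bb k)) := by ring
        _ ≤ (3 / 2 - ε / 8) * ((3 / 2 - ε / 8) * bb (k + 1)) := by gcongr
        _ ≤ (3 / 2 - ε / 8) * bb (k + 2) := by gcongr
        _ ≤ bb (k + 3) := c1
    have hhi : (bb (k + 3) : ℝ) ≤ (3 / 2 + ε / 8) ^ 3 * (bb k : ℝ) := by
      have h1 : (0 : ℝ) ≤ 3 / 2 + ε / 8 := by linarith
      calc (bb (k + 3) : ℝ) ≤ (3 / 2 + ε / 8) * bb (k + 2) := c2
        _ ≤ (3 / 2 + ε / 8) * ((3 / 2 + ε / 8) * bb (k + 1)) := by gcongr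
        _ ≤ (3 / 2 + ε / 8) * ((3 / 2 + ε / 8) * ((3 / 2 + ε / 8) * bb k)) := by gcongr
        _ = (3 / 2 + ε / 8) ^ 3 * (bb k : ℝ) := by ring
    have e1 : (27 / 8 - ε) * (bb k : ℝ) ≤ bb (k + 3) := by
      refine le_trans ?_ hlo
      refine mul_le_mul_of_nonneg_right ?_ hb.le
      nlinarith [mul_pos hε0 hε0, mul_pos (mul_pos hε0 hε0) hε0]
    have e2 : (bb (k + 3) : ℝ) ≤ (27 / 8 + ε) * (bb k : ℝ) := by
      refine le_trans hhi ?_
      refine mul_le_mul_of_nonneg_right ?_ hb.le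
      nlinarith [mul_pos hε0 hε0, mul_pos (mul_pos hε0 hε0) hε0]
    have e3 : (bb k : ℝ) ≤ 1 / 3 * bb (k + 3) := by nlinarith
    have herr : |(4 / 19 : ℝ) * bb k + (bb (k + 1) - bb k) - 4 / 19 * bb (k + 3)| ≤
        ε * bb k := by
      rw [abs_le]
      constructor
      · nlinarith
      · nlinarith
    have h1 : (ww (k + 3) : ℝ) - 4 / 19 * bb (k + 3) = ((ww k : ℝ) - 4 / 19 * bb k) +
        ((4 / 19 : ℝ) * bb k + (bb (k + 1) - bb k) - 4 / 19 * bb (k + 3)) := by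
      rw [hrec]; ring
    rw [h1]
    refine (abs_add_le _ _).trans ((add_le_add hu herr).trans ?_)
    have hb3 : (0 : ℝ) < bb (k + 3) := by exact_mod_cast bb_pos hS (k + 3)
    have h2 : r * (bb k : ℝ) ≤ r * (1 / 3 * bb (k + 3)) := mul_le_mul_of_nonneg_left e3 hr
    have h3 : ε * (bb k : ℝ) ≤ ε * (1 / 3 * bb (k + 3)) := mul_le_mul_of_nonneg_left e3 hε0.le
    nlinarith [mul_nonneg hr hb3.le, mul_pos hε0 hb3]
  -- iteration
  have hiter : ∀ j k, k1 ≤ k → |(ww (k + 3 * j) : ℝ) - 4 / 19 * bb (k + 3 * j)| ≤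
      ((1 / 2) ^ j + ε) * bb (k + 3 * j) := by
    intro j
    induction j with
    | zero =>
      intro k _
      have h1 : (ww k : ℝ) ≤ bb k := by exact_mod_cast ww_le k
      have h2 : (0 : ℝ) ≤ ww k := by positivity
      have h3 : (0 : ℝ) ≤ bb k := by positivity
      simp only [mul_zero, add_zero, pow_zero]
      rw [abs_le]
      constructor
      · nlinarith [mul_nonneg hε0.le h3]
      · nlinarith [mul_nonneg hε0.le h3]
    | succ j ih =>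
      intro k hk
      have h1 := ih k hk
      have h2 := hcontr (k + 3 * j) (by omega) ((1 / 2) ^ j + ε) (by positivity) h1
      have h3 : k + 3 * (j + 1) = k + 3 * j + 3 := by ring
      rw [h3]
      refine h2.trans (le_of_eq ?_)
      rw [pow_succ]
      ring
  obtain ⟨J, hJ⟩ := exists_pow_lt_of_lt_one (show (0 : ℝ) < ε from hε0)
    (show (1 / 2 : ℝ) < 1 by norm_num)
  refine ⟨k1 + 3 * J, fun k hk => ?_⟩
  have h1 := hiter J (k - 3 * J) (by omega)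
  rw [show k - 3 * J + 3 * J = k by omega] at h1
  refine h1.trans (mul_le_mul_of_nonneg_right ?_ (by positivity))
  linarith

include hS in
/-- the numbers of digits of the three families in era `k` (limits `8/38`, `12/38`, `18/38`) -/
theorem cnt_bounds (δ : ℝ) (hδ : 0 < δ) : ∃ k0 : ℕ, ∀ k ≥ k0, ∀ y : ℕ, bb k ≤ y → y ≤ bb (k + 1) →
    |(cnt (fam k) y : ℝ) - (4 / 19 * bb k + ((y : ℝ) - bb k))| ≤ δ * bb k ∧
      |(cnt (fam (k + 1)) y : ℝ) - 6 / 19 * bb k| ≤ δ * bb k ∧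
      |(cnt (fam (k + 2)) y : ℝ) - 9 / 19 * bb k| ≤ δ * bb k := by
  set ε : ℝ := min (δ / 6) (1 / 100) with hε
  have hε0 : 0 < ε := by rw [hε]; positivity
  have hε1 : ε ≤ 1 / 100 := min_le_right _ _
  have hεδ : ε ≤ δ / 6 := min_le_left _ _
  obtain ⟨k1, hk1⟩ := ww_lim hS ε hε0
  obtain ⟨k2, hk2⟩ := bb_ratio hS ε hε0
  refine ⟨max k1 k2, fun k hk y h1 h2 => ?_⟩
  have hka : k1 ≤ k := (le_max_left _ _).trans hk
  have hkb : k2 ≤ k := (le_max_right _ _).trans hk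
  have hb : (0 : ℝ) < bb k := by exact_mod_cast bb_pos hS k
  have w0 := hk1 k hka
  have w1 := hk1 (k + 1) (by omega)
  have w2 := hk1 (k + 2) (by omega)
  obtain ⟨r1, r2⟩ := hk2 k hkb
  obtain ⟨r3, r4⟩ := hk2 (k + 1) (by omega)
  have r5 : (bb (k + 2) : ℝ) ≤ (3 / 2 + ε) * ((3 / 2 + ε) * bb k) := by
    refine r4.trans ?_
    gcongr
  have r6 : (3 / 2 - ε) * ((3 / 2 - ε) * (bb k : ℝ)) ≤ bb (k + 2) := by
    refine le_trans ?_ r3
    have : (0 : ℝ) ≤ 3 / 2 - ε := by linarith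
    gcongr
  have hεb : 0 < ε * (bb k : ℝ) := mul_pos hε0 hb
  have hεεb : ε * ε * (bb k : ℝ) ≤ 1 / 100 * (ε * bb k) := by
    have := mul_le_mul_of_nonneg_right hε1 hεb.le
    linarith
  have hεεb0 : 0 ≤ ε * ε * (bb k : ℝ) := by positivity
  have hδb : 6 * (ε * (bb k : ℝ)) ≤ δ * bb k := by
    have := mul_le_mul_of_nonneg_right hεδ hb.le
    linarith
  have q5 : (bb (k + 2) : ℝ) ≤ 9 / 4 * bb k + 3 * (ε * bb k) + ε * ε * bb k := by
    refine r5.trans (le_of_eq ?_)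
    ring
  have q6 : 9 / 4 * (bb k : ℝ) - 3 * (ε * bb k) + ε * ε * bb k ≤ bb (k + 2) := by
    refine le_trans (le_of_eq ?_) r6
    ring
  have q1 : 3 / 2 * (bb k : ℝ) - ε * bb k ≤ bb (k + 1) := by
    refine le_trans (le_of_eq ?_) r1
    ring
  have q2 : (bb (k + 1) : ℝ) ≤ 3 / 2 * bb k + ε * bb k := by
    refine r2.trans (le_of_eq ?_)
    ring
  have hεb1 : ε * (bb k : ℝ) ≤ 1 / 100 * bb k := mul_le_mul_of_nonneg_right hε1 hb.le
  have p1 : ε * (bb (k + 1) : ℝ) ≤ 2 * (ε * bb k) := by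
    have h3 : (bb (k + 1) : ℝ) ≤ 2 * bb k := by linarith
    have := mul_le_mul_of_nonneg_left h3 hε0.le
    linarith
  have p2 : ε * (bb (k + 2) : ℝ) ≤ 3 * (ε * bb k) := by
    have h3 : (bb (k + 2) : ℝ) ≤ 3 * bb k := by linarith
    have := mul_le_mul_of_nonneg_left h3 hε0.le
    linarith
  rw [cnt_one hS k h1 h2, cnt_two hS k h1 h2, cnt_own hS k h1 h2]
  have hww : cnt (fam k) (bb k) = ww k := rfl
  rw [hww]
  push_cast [Nat.cast_sub h1]
  rw [abs_le] at w0 w1 w2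
  obtain ⟨w0a, w0b⟩ := w0
  obtain ⟨w1a, w1b⟩ := w1
  obtain ⟨w2a, w2b⟩ := w2
  rw [abs_le, abs_le, abs_le]
  refine ⟨⟨?_, ?_⟩, ⟨?_, ?_⟩, ⟨?_, ?_⟩⟩
  · linarith
  · linarith
  · linarith
  · linarith
  · linarith
  · linarith

include hS in
/-- an era index beyond `k0` for all large positions -/
lemma era_large (k0 : ℕ) : ∀ y ≥ bb k0, k0 ≤ era y := by
  intro y hy
  have h0 : bb 0 ≤ y := (hS.mono.monotone (Nat.zero_le k0)).trans hy
  have h1 := (hS.spec y h0).2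
  have h2 : bb k0 < bb (era y + 1) := lt_of_le_of_lt hy h1
  have h3 := hS.mono.lt_iff_lt.1 h2
  omega

include hS in
/-- each family has between `4/19 - δ` and `9/19 + δ` of the digits -/
theorem cnt_sharp' (δ : ℝ) (hδ : 0 < δ) : ∃ y0 : ℕ, ∀ y ≥ y0, ∀ f : Fin 3,
    (4 / 19 - δ) * (y : ℝ) ≤ cnt f y ∧ (cnt f y : ℝ) ≤ (9 / 19 + δ) * y := by
  set ε : ℝ := δ / 4 with hε
  have hε0 : 0 < ε := by positivity
  obtain ⟨k1, hk1⟩ := cnt_bounds hS ε hε0
  obtain ⟨k2, hk2⟩ := bb_ratio hS ε hε0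
  refine ⟨bb (max k1 k2), fun y hy f => ?_⟩
  have hk := era_large hS _ y hy
  have hka : k1 ≤ era y := (le_max_left _ _).trans hk
  have hkb : k2 ≤ era y := (le_max_right _ _).trans hk
  obtain ⟨h1, h2⟩ := hS.spec y ((hS.mono.monotone (Nat.zero_le _)).trans hy)
  set k := era y with hkdef
  have hb : (0 : ℝ) < bb k := by exact_mod_cast bb_pos hS k
  obtain ⟨c1, c2, c3⟩ := hk1 k hka y h1 h2.le
  obtain ⟨r1, r2⟩ := hk2 k hkb
  have hy1 : (bb k : ℝ) ≤ y := by exact_mod_cast h1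
  have hy2 : (y : ℝ) ≤ bb (k + 1) := by exact_mod_cast h2.le
  have hδb : δ * (bb k : ℝ) ≤ δ * y := mul_le_mul_of_nonneg_left hy1 hδ.le
  have hεb : ε * (bb k : ℝ) = δ * bb k / 4 := by rw [hε]; ring
  have hy3 : (y : ℝ) ≤ 3 / 2 * bb k + ε * bb k := by linarith
  have hpos : 0 < δ * (bb k : ℝ) := mul_pos hδ hb
  rw [abs_le] at c1 c2 c3
  obtain ⟨c1a, c1b⟩ := c1
  obtain ⟨c2a, c2b⟩ := c2
  obtain ⟨c3a, c3b⟩ := c3
  rcases fam_cases k f with hf | hf | hf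
  · rw [hf]
    constructor
    · linarith
    · linarith
  · rw [hf]
    constructor
    · linarith
    · linarith
  · rw [hf]
    constructor
    · linarith
    · linarith

end

/-! ## Unconditional forms -/

theorem sched : Sched :=
  ⟨Pool.Agent.Helper27.T4.bb_step, Pool.Agent.Helper27.T4.era_spec, Pool.Agent.Helper27.T4.era_eq,
    Pool.Agent.Helper27.T4.bb_strictMono, Pool.Agent.Helper27.T4.wof_le_eps⟩

/-- each family has between `4/19 - δ` and `9/19 + δ` of the digits -/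
theorem cnt_sharp (δ : ℝ) (hδ : 0 < δ) : ∃ y0 : ℕ, ∀ y ≥ y0, ∀ f : Fin 3,
    (4 / 19 - δ) * (y : ℝ) ≤ cnt f y ∧ (cnt f y : ℝ) ≤ (9 / 19 + δ) * y := cnt_sharp' sched δ hδ

/-- the numbers of digits of the three families in era `k` (limits `8/38`, `12/38`, `18/38`) -/
theorem cnt_era (δ : ℝ) (hδ : 0 < δ) : ∃ k0 : ℕ, ∀ k ≥ k0, ∀ y : ℕ, bb k ≤ y → y ≤ bb (k + 1) →
    |(cnt (fam k) y : ℝ) - (4 / 19 * bb k + ((y : ℝ) - bb k))| ≤ δ * bb k ∧
      |(cnt (fam (k + 1)) y : ℝ) - 6 / 19 * bb k| ≤ δ * bb k ∧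
      |(cnt (fam (k + 2)) y : ℝ) - 9 / 19 * bb k| ≤ δ * bb k := cnt_bounds sched δ hδ

/-- the ratio of two consecutive borders -/
theorem bb_ratio_lim (ε : ℝ) (hε : 0 < ε) : ∃ k0 : ℕ, ∀ k ≥ k0,
    (3 / 2 - ε) * (bb k : ℝ) ≤ bb (k + 1) ∧ (bb (k + 1) : ℝ) ≤ (3 / 2 + ε) * bb k :=
  bb_ratio sched ε hε

/-- every family has a positive proportion of the digits -/
theorem cnt_ge : ∃ y0 : ℕ, ∀ y ≥ y0, ∀ f : Fin 3,
    (y : ℝ) / 6 ≤ cnt f y ∧ (cnt f y : ℝ) ≤ y / 2 := by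
  obtain ⟨y0, hy0⟩ := cnt_sharp (1 / 100) (by norm_num)
  refine ⟨y0, fun y hy f => ?_⟩
  obtain ⟨h1, h2⟩ := hy0 y hy f
  have h3 : (0 : ℝ) ≤ y := by positivity
  constructor
  · linarith
  · linarith

/-- exact forms inside an era -/
theorem cnt_era_own (k : ℕ) {y : ℕ} (h1 : bb k ≤ y) (h2 : y ≤ bb (k + 1)) :
    cnt (fam k) y = ww k + (y - bb k) := cnt_own sched k h1 h2

theorem cnt_era_one (k : ℕ) {y : ℕ} (h1 : bb k ≤ y) (h2 : y ≤ bb (k + 1)) :
    cnt (fam (k + 1)) y = ww (k + 1) := cnt_one sched k h1 h2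

theorem cnt_era_two (k : ℕ) {y : ℕ} (h1 : bb k ≤ y) (h2 : y ≤ bb (k + 1)) :
    cnt (fam (k + 2)) y = ww (k + 2) := cnt_two sched k h1 h2

theorem ww_add_three (k : ℕ) : ww (k + 3) = ww k + (bb (k + 1) - bb k) := ww_rec sched k

theorem ww_limit (δ : ℝ) (hδ : 0 < δ) : ∃ k0 : ℕ, ∀ k ≥ k0,
    |(ww k : ℝ) - 4 / 19 * bb k| ≤ δ * bb k := ww_lim sched δ hδ

theorem own_era {y k : ℕ} (h1 : bb k ≤ y) (h2 : y < bb (k + 1)) : own y = fam k :=
  own_eq sched h1 h2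

end Pool.Agent.Helper97.ET
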